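import Pool.Agent.U36.TS.Stm

/-!
# Project TS, package RU: the action on the roots of unity
-/

set_option autoImplicit false

namespace Pool.Agent.U156.TS

open Pool.Agent.U36.TS

/-- a root of unity of order a power of `l` which is `1` in the residue field is `1` -/
theorem eq_one_of_nonunit {B : Type} [Field B] (V : ValuationSubring B) {p l : ℕ} (hp : p.Prime)
    (hl : l.Prime) (hpl : p ≠ l) (hpV : (p : B) ∈ V.nonunits) {m : ℕ} {x : B}
    (hx : x ^ l ^ m = 1) (h1 : x - 1 ∈ V.nonunits) : x = 1 := by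
  by_contra hne
  have hle : ∀ n : ℕ, V.valuation (n : B) ≤ 1 := fun n =>
    (V.valuation_le_one_iff _).2 (natCast_mem V n)
  have h1' : V.valuation (x - 1) < 1 := (ValuationSubring.mem_nonunits_iff V).1 h1
  have hxV : V.valuation x ≤ 1 := by
    have h2 : x = (x - 1) + 1 := by ring
    rw [h2]
    refine (V.valuation.map_add _ _).trans (max_le h1'.le ?_)
    rw [map_one]
  have hpow : ∀ i : ℕ, V.valuation (x ^ i - 1) < 1 := by
    intro i
    rw [← mul_geom_sum, map_mul]
    have h2 : V.valuation (∑ j ∈ Finset.range i, x ^ j) ≤ 1 := by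
      refine V.valuation.map_sum_le fun j _ => ?_
      rw [map_pow]
      exact pow_le_one' hxV j
    calc V.valuation (x - 1) * V.valuation (∑ j ∈ Finset.range i, x ^ j)
        ≤ V.valuation (x - 1) * 1 := by gcongr
      _ < 1 := by rwa [mul_one]
  have hsum : ∑ j ∈ Finset.range (l ^ m), x ^ j = 0 := by
    have h2 := mul_geom_sum x (l ^ m)
    rw [hx, sub_self] at h2
    rcases mul_eq_zero.1 h2 with h3 | h3
    · exact absurd (sub_eq_zero.1 h3) hne
    · exact h3
  have hN : V.valuation ((l ^ m : ℕ) : B) < 1 := by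
    have h2 : ((l ^ m : ℕ) : B) = -∑ j ∈ Finset.range (l ^ m), (x ^ j - 1) := by
      rw [Finset.sum_sub_distrib, hsum]
      simp
    rw [h2, Valuation.map_neg]
    exact V.valuation.map_sum_lt one_ne_zero fun j _ => hpow j
  have hcop : Nat.Coprime p (l ^ m) := ((Nat.coprime_primes hp hl).2 hpl).pow_right m
  have hbez : (1 : B) = (p : B) * ((p.gcdA (l ^ m) : ℤ) : B) +
      ((l ^ m : ℕ) : B) * ((p.gcdB (l ^ m) : ℤ) : B) := by
    have h2 := Nat.gcd_eq_gcd_ab p (l ^ m)
    rw [Nat.coprime_iff_gcd_eq_one.1 hcop] at h2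
    have h3 := congrArg (fun z : ℤ => (z : B)) h2
    simpa using h3
  have hint : ∀ z : ℤ, V.valuation (z : B) ≤ 1 := fun z =>
    (V.valuation_le_one_iff _).2 (intCast_mem V z)
  have hlt : V.valuation (1 : B) < 1 := by
    rw [hbez]
    refine V.valuation.map_add_lt ?_ ?_
    · rw [map_mul]
      calc V.valuation (p : B) * V.valuation ((p.gcdA (l ^ m) : ℤ) : B)
          ≤ V.valuation (p : B) * 1 := by gcongr; exact hint _
        _ < 1 := by rw [mul_one]; exact (ValuationSubring.mem_nonunits_iff V).1 hpV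
    · rw [map_mul]
      calc V.valuation ((l ^ m : ℕ) : B) * V.valuation ((p.gcdB (l ^ m) : ℤ) : B)
          ≤ V.valuation ((l ^ m : ℕ) : B) * 1 := by gcongr; exact hint _
        _ < 1 := by rwa [mul_one]
  rw [map_one] at hlt
  exact lt_irrefl _ hlt

/-- the valuation of a root of a unit is one -/
theorem val_one {B : Type} [Field B] (V : ValuationSubring B) {n : ℕ} (hn : n ≠ 0) {x y : B}
    (hx : V.valuation x = 1) (h : y ^ n = x) : V.valuation y = 1 := by
  have h1 : V.valuation y ^ n = 1 := by rw [← map_pow, h, hx]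
  exact (pow_eq_one_iff.1 h1).resolve_right hn

/-- two roots which agree in the residue field are equal -/
theorem eq_of_nonunit {B : Type} [Field B] (V : ValuationSubring B) {p l : ℕ} (hp : p.Prime)
    (hl : l.Prime) (hpl : p ≠ l) (hpV : (p : B) ∈ V.nonunits) {m : ℕ} {x y : B}
    (hx : V.valuation x = 1) (h : y ^ l ^ m = x ^ l ^ m) (h1 : y - x ∈ V.nonunits) : y = x := by
  have hx0 : x ≠ 0 := by
    rintro rfl
    rw [map_zero] at hx
    exact zero_ne_one hx
  have h2 : (y / x) ^ l ^ m = 1 := by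
    rw [div_pow, h, div_self (pow_ne_zero _ hx0)]
  have h3 : y / x - 1 ∈ V.nonunits := by
    rw [ValuationSubring.mem_nonunits_iff] at h1 ⊢
    have h4 : y / x - 1 = (y - x) / x := by field_simp
    rw [h4, map_div₀, hx, div_one]
    exact h1
  have h5 := eq_one_of_nonunit V hp hl hpl hpV h2 h3
  rwa [div_eq_one_iff_eq hx0] at h5

theorem t_RU : S_RU := by
  intro K B _ _ _ _ _ V p l q t f hp hl hpl hpV ht hf
  have hlm : ∀ m : ℕ, l ^ m ≠ 0 := fun m => pow_ne_zero _ hl.ne_zero
  have hv : ∀ (m : ℕ) (x : B), x ^ l ^ m = 1 → V.valuation x = 1 := fun m x hx =>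
    val_one V (hlm m) (map_one _) hx
  have hmem : ∀ x : B, V.valuation x = 1 → x ∈ V := fun x hx =>
    (V.valuation_le_one_iff _).1 hx.le
  have hT : ∀ (m : ℕ) (x : B), x ^ l ^ m = 1 → t x = x := by
    intro m x hx
    refine eq_of_nonunit V hp hl hpl hpV (m := m) (hv m x hx) ?_ (ht x (hmem x (hv m x hx)))
    rw [← map_pow, hx, map_one]
  refine ⟨fun m x hx => ⟨hT m x hx, ?_⟩, ?_, ?_⟩
  · refine eq_of_nonunit V hp hl hpl hpV (m := m) ?_ ?_ (hf x (hmem x (hv m x hx)))
    · rw [map_pow, hv m x hx, one_pow]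
    · rw [← map_pow, hx, map_one, ← pow_mul, mul_comm q, pow_mul, hx, one_pow]
  · intro m k x y hx hne hy
    have h1 : V.valuation (x - 1) = 1 := by
      refine le_antisymm ?_ ?_
      · exact (V.valuation_le_one_iff _).2 (sub_mem (hmem x (hv m x hx)) (one_mem V))
      · by_contra hlt
        exact hne (eq_one_of_nonunit V hp hl hpl hpV hx
          ((ValuationSubring.mem_nonunits_iff V).2 (not_le.1 hlt)))
    have h2 := val_one V (hlm k) h1 hy
    refine eq_of_nonunit V hp hl hpl hpV (m := k) h2 ?_ (ht y (hmem y h2))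
    rw [← map_pow, hy, map_sub, hT m x hx, map_one]
  · intro g hg m x hx
    have h1 := hv m x hx
    have hx0 : x ≠ 0 := by
      rintro rfl
      rw [map_zero] at h1
      exact zero_ne_one h1
    have h2 : (g x / x) ^ l ^ m = 1 := by
      rw [div_pow, hx, ← map_pow, hx, map_one, div_one]
    have h3 := eq_one_of_nonunit V hp hl hpl hpV h2 (hg x hx0)
    rwa [div_eq_one_iff_eq hx0] at h3

end Pool.Agent.U156.TS

/-- RU: the action on the roots of unity and on the roots of `zeta - 1` -/
theorem Pool.Agent.U36.TS.t_RU : Pool.Agent.U36.TS.S_RU := Pool.Agent.U156.TS.t_RU
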